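import Mathlib

/-!
# Partizan games given by rulesets, Toads and Frogs, and a checker for strategies

A position of Toads and Frogs on a strip with `20` squares is coded by two bit masks. A strategy for
Left (replying to every move of Right) is coded by a tree of numbers, and `chkTr` checks it.
-/

namespace Pool.Agent.Q129.Toads

/-- A ruleset: positions, the moves of Left and the moves of Right. -/
structure Ruleset where
  /-- The positions. -/
  Pos : Type
  /-- The moves of Left. -/
  left : Pos → Pos → Prop
  /-- The moves of Right. -/
  right : Pos → Pos → Prop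

/-- The moves of Left (`true`) or of Right (`false`). -/
def Ruleset.move (A : Ruleset) (b : Bool) (x y : A.Pos) : Prop :=
  if b then A.left x y else A.right x y

/-- The ruleset with the roles of Left and Right exchanged. -/
def Ruleset.neg (A : Ruleset) : Ruleset where
  Pos := A.Pos
  left := A.right
  right := A.left

/-- The disjunctive sum: a move is a move in exactly one component. -/
def Ruleset.add (A B : Ruleset) : Ruleset where
  Pos := A.Pos × B.Pos
  left x y := (A.left x.1 y.1 ∧ x.2 = y.2) ∨ (x.1 = y.1 ∧ B.left x.2 y.2)
  right x y := (A.right x.1 y.1 ∧ x.2 = y.2) ∨ (x.1 = y.1 ∧ B.right x.2 y.2)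

/-- Under normal play the player `b` (`true` for Left) loses when he is to move at `x`: to every
move `y` of `b` the other player has a reply `f y` at which `b` loses again. -/
inductive Loses (A : Ruleset) (b : Bool) : A.Pos → Prop
  | intro (x : A.Pos) (f : ∀ y, A.move b x y → A.Pos)
      (hf : ∀ y h, A.move (!b) y (f y h)) (hl : ∀ y h, Loses A b (f y h)) : Loses A b x

/-- The positions `x` of `A` and `y` of `B` have the same value: the difference `x - y` is a win
for the second player. -/
def SameValue (A : Ruleset) (x : A.Pos) (B : Ruleset) (y : B.Pos) : Prop :=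
  Loses (A.add B.neg) true (x, y) ∧ Loses (A.add B.neg) false (x, y)

lemma loses_of {A : Ruleset} {b : Bool} {x : A.Pos}
    (h : ∀ y, A.move b x y → ∃ z, A.move (!b) y z ∧ Loses A b z) : Loses A b x := by
  choose f h1 h2 using h
  exact .intro x f h1 h2

/-- The mover cannot both lose and have a move to a position at which the opponent loses. -/
lemma not_loses {A : Ruleset} {b : Bool} {x : A.Pos} (hx : Loses A b x) :
    ∀ y, A.move b x y → ¬ Loses A (!b) y := by
  induction hx with
  | intro x f hf hl ih =>
    intro y hy hly
    cases hly with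
    | intro _ g hg hgl =>
      have h1 := hf y hy
      have h2 := hg (f y hy) h1
      rw [Bool.not_not] at h2
      exact ih y hy _ h2 (hgl (f y hy) h1)

/-- The contents of a square. -/
inductive Cell
  | empty
  | toad
  | frog

/-- Toads and Frogs on a strip with `n` squares `0, ..., n - 1` (the squares `i ≥ n` are not part of
the strip). Left moves a toad from `i` to `i + 1` or over a frog to `i + 2`; Right moves a frog from
`i + 1` to `i` or from `i + 2` over a toad to `i`. -/
def toadsAndFrogs (n : ℕ) : Ruleset where
  Pos := ℕ → Cell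
  left p q := ∃ i, p i = .toad ∧
    ((i + 1 < n ∧ p (i + 1) = .empty ∧
      q = Function.update (Function.update p i .empty) (i + 1) .toad) ∨
    (i + 2 < n ∧ p (i + 1) = .frog ∧ p (i + 2) = .empty ∧
      q = Function.update (Function.update p i .empty) (i + 2) .toad))
  right p q := ∃ i, p i = .empty ∧
    ((i + 1 < n ∧ p (i + 1) = .frog ∧
      q = Function.update (Function.update p (i + 1) .empty) i .frog) ∨
    (i + 2 < n ∧ p (i + 1) = .toad ∧ p (i + 2) = .frog ∧
      q = Function.update (Function.update p (i + 2) .empty) i .frog))

/-- The position with `a` toads, then `b` empty squares, then `c` frogs. -/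
def start (a b c : ℕ) : ℕ → Cell := fun i =>
  if i < a then .toad else if i < a + b then .empty else if i < a + b + c then .frog else .empty

/-- The positions of the games `0 = { | }`, `1 = {0 | }` and `1* = {1 | 1}`. -/
inductive Small
  | zero
  | one
  | oneStar

/-- The games `0`, `1` and `1*`. -/
def small : Ruleset where
  Pos := Small
  left p q := (p = .one ∧ q = .zero) ∨ (p = .oneStar ∧ q = .one)
  right p q := p = .oneStar ∧ q = .one

/-! ### Codes of positions -/

/-- The position with toads given by the bits of `T` and frogs given by the bits of `F`. -/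
def pos (T F : ℕ) : ℕ → Cell := fun i =>
  if T.testBit i then .toad else if F.testBit i then .frog else .empty

/-- The tree that holds a strategy. -/
inductive Tr
  | leaf (s r : ℕ)
  | node (l r : Tr)

/-- The state with a given number. -/
def Tr.get : Tr → ℕ → ℕ
  | .leaf s _, p => (s >>> (41 * p)) % 2199023255552
  | .node l r, p => bif Nat.beq (p % 2) 0 then l.get (p / 2) else r.get (p / 2)

/-- Check that the state with number `p` is a legal reply of Left at `T`, `F`, `r` with the toad
on `j`. -/
def chkReply (W : Tr) (T F r j k p : ℕ) : Bool :=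
  T.testBit j && !(F.testBit j) && Nat.beq ((W.get p / 1048576) % 1048576) F &&
    Nat.beq ((W.get p / 1099511627776) % 2) r &&
    bif Nat.beq k 0 then
      Nat.ble (j + 2) 20 && !(T.testBit (j + 1)) && !(F.testBit (j + 1)) &&
        Nat.beq (W.get p % 1048576) (T ^^^ (3 <<< j))
    else
      Nat.ble (j + 3) 20 && !(T.testBit (j + 1)) && F.testBit (j + 1) &&
        !(T.testBit (j + 2)) && !(F.testBit (j + 2)) &&
        Nat.beq (W.get p % 1048576) (T ^^^ (5 <<< j))

/-- Check all slides of Right. -/
def chkSlides (W : Tr) (T F r : ℕ) : ℕ → ℕ → ℕ → (ℕ → Bool) → Bool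
  | 0, _, _, _ => false
  | fuel + 1, m, c, k => bif Nat.beq m 0 then k c else
      chkReply W T (F ^^^ (3 <<< (c % 32))) r ((c >>> 5) % 32) ((c >>> 10) % 2)
        ((c >>> 11) % 32768) &&
      chkSlides W T F r fuel (m ^^^ (1 <<< (c % 32))) (c >>> 26) k

/-- Check all jumps of Right. -/
def chkJumps (W : Tr) (T F r : ℕ) : ℕ → ℕ → ℕ → (ℕ → Bool) → Bool
  | 0, _, _, _ => false
  | fuel + 1, m, c, k => bif Nat.beq m 0 then k c else
      chkReply W T (F ^^^ (5 <<< (c % 32))) r ((c >>> 5) % 32) ((c >>> 10) % 2)
        ((c >>> 11) % 32768) &&
      chkJumps W T F r fuel (m ^^^ (1 <<< (c % 32))) (c >>> 26) k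

/-- Check a state, given by the masks of the toads and of the frogs and the number `r` of free
moves of Right. -/
def chkState (W : Tr) (T F r c : ℕ) (k : ℕ → Bool) : Bool :=
  chkSlides W T F r 8 ((F >>> 1) &&& (1048575 ^^^ (T ||| F))) c fun c =>
    chkJumps W T F r 8 ((F >>> 2) &&& ((T >>> 1) &&& (1048575 ^^^ (T ||| F)))) c fun c =>
      bif Nat.beq r 0 then k c else
        chkReply W T F 0 ((c >>> 5) % 32) ((c >>> 10) % 2) ((c >>> 11) % 32768) && k (c >>> 26)

/-- Check all states of a leaf. -/
def chkLeaf (W : Tr) : ℕ → ℕ → ℕ → Bool
  | 0, s, _ => Nat.beq s 0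
  | fuel + 1, s, c => bif Nat.beq s 0 then true else
      chkState W (s % 1048576) ((s / 1048576) % 1048576) ((s / 1099511627776) % 2) c
        fun c => chkLeaf W fuel (s >>> 41) c

/-- Check all states of a tree. -/
def chkTr (W : Tr) : Tr → Bool
  | .leaf s c => chkLeaf W 70 s c
  | .node l r => chkTr W l && chkTr W r

end Pool.Agent.Q129.Toads
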