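import Pool.Agent.Q129.Toads.Check

/-! # Soundness of the checker -/

namespace Pool.Agent.Q129.Toads

lemma testBit_three (i k : ℕ) : (3 <<< i).testBit k = decide (k = i ∨ k = i + 1) := by
  rw [Nat.testBit_shiftLeft]
  rcases lt_or_ge k i with h | h
  · have h1 : ¬ (k ≥ i) := by omega
    have h2 : ¬ (k = i ∨ k = i + 1) := by omega
    simp [h1, h2]
  · obtain ⟨m, rfl⟩ := Nat.exists_eq_add_of_le h
    rw [Nat.add_sub_cancel_left]
    rcases m with _ | _ | m
    · simp
    · simp [Nat.testBit]
    · have h3 : Nat.testBit 3 (m + 2) = false :=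
        Nat.testBit_lt_two_pow (lt_of_lt_of_le (by norm_num)
          (Nat.pow_le_pow_right (by norm_num) (by omega : 2 ≤ m + 2)))
      rw [h3]
      have h2 : ¬ (i + (m + 1 + 1) = i ∨ i + (m + 1 + 1) = i + 1) := by omega
      simp [h2]

lemma testBit_five (i k : ℕ) : (5 <<< i).testBit k = decide (k = i ∨ k = i + 2) := by
  rw [Nat.testBit_shiftLeft]
  rcases lt_or_ge k i with h | h
  · have h1 : ¬ (k ≥ i) := by omega
    have h2 : ¬ (k = i ∨ k = i + 2) := by omega
    simp [h1, h2]
  · obtain ⟨m, rfl⟩ := Nat.exists_eq_add_of_le h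
    rw [Nat.add_sub_cancel_left]
    rcases m with _ | _ | _ | m
    · simp
    · simp [Nat.testBit]
    · simp [Nat.testBit]
    · have h3 : Nat.testBit 5 (m + 3) = false :=
        Nat.testBit_lt_two_pow (lt_of_lt_of_le (by norm_num)
          (Nat.pow_le_pow_right (by norm_num) (by omega : 3 ≤ m + 3)))
      have h2 : ¬ (i + (m + 1 + 1 + 1) = i ∨ i + (m + 1 + 1 + 1) = i + 2) := by omega
      have h4 : m + 1 + 1 + 1 = m + 3 := rfl
      rw [h4] at h2 ⊢
      rw [h3]
      simp [h2]

lemma testBit_one (i k : ℕ) : (1 <<< i).testBit k = decide (k = i) := by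
  rw [Nat.testBit_shiftLeft]
  rcases lt_or_ge k i with h | h
  · have h1 : ¬ (k ≥ i) := by omega
    have h2 : ¬ (k = i) := by omega
    simp [h1, h2]
  · obtain ⟨m, rfl⟩ := Nat.exists_eq_add_of_le h
    rw [Nat.add_sub_cancel_left]
    rcases m with _ | m
    · simp
    · have h3 : Nat.testBit 1 (m + 1) = false :=
        Nat.testBit_lt_two_pow (lt_of_lt_of_le (by norm_num)
          (Nat.pow_le_pow_right (by norm_num) (by omega : 1 ≤ m + 1)))
      rw [h3]
      have h2 : ¬ (i + (m + 1) = i) := by omega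
      simp [h2]

/-- A reply of Left at `T`, `F`, `r` to a state of the tree `W`. -/
def Reply (W : Tr) (T F r : ℕ) : Prop :=
  ∃ T' p, (W.get p / 1048576) % 1048576 = F ∧ (W.get p / 1099511627776) % 2 = r ∧
    W.get p % 1048576 = T' ∧
    ((∃ j, T.testBit j = true ∧ F.testBit j = false ∧ j + 1 < 20 ∧ T.testBit (j + 1) = false ∧
      F.testBit (j + 1) = false ∧ T' = T ^^^ (3 <<< j)) ∨
    (∃ j, T.testBit j = true ∧ F.testBit j = false ∧ j + 2 < 20 ∧ T.testBit (j + 1) = false ∧
      F.testBit (j + 1) = true ∧ T.testBit (j + 2) = false ∧ F.testBit (j + 2) = false ∧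
      T' = T ^^^ (5 <<< j)))

lemma reply_of_chk {W : Tr} {T F r j k p : ℕ} (h : chkReply W T F r j k p = true) :
    Reply W T F r := by
  unfold chkReply at h
  rcases hk : Nat.beq k 0 with _ | _ <;> simp only [hk, cond_true, cond_false, Bool.and_eq_true,
    Nat.beq_eq, Nat.ble_eq, Bool.not_eq_true'] at h
  · obtain ⟨⟨⟨⟨h1, h0⟩, h2⟩, h3⟩, ⟨⟨⟨⟨h4, h5⟩, h6⟩, h7⟩, h8⟩, h9⟩ := h
    exact ⟨_, p, h2, h3, rfl, Or.inr ⟨j, h1, h0, by omega, h5, h6, h7, h8, h9⟩⟩
  · obtain ⟨⟨⟨⟨h1, h0⟩, h2⟩, h3⟩, ⟨⟨h4, h5⟩, h6⟩, h7⟩ := h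
    exact ⟨_, p, h2, h3, rfl, Or.inl ⟨j, h1, h0, by omega, h5, h6, h7⟩⟩

lemma slides_of_chk {W : Tr} {T F r : ℕ} {k : ℕ → Bool} : ∀ {fuel m c : ℕ},
    chkSlides W T F r fuel m c k = true →
    (∀ i, m.testBit i = true → Reply W T (F ^^^ (3 <<< i)) r) ∧ ∃ c', k c' = true := by
  intro fuel
  induction fuel with
  | zero => intro m c h; simp [chkSlides] at h
  | succ fuel ih =>
    intro m c h
    rw [chkSlides] at h
    rcases hm : Nat.beq m 0 with _ | _
    · rw [hm, cond_false, Bool.and_eq_true] at h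
      obtain ⟨h1, h2⟩ := ih h.2
      refine ⟨fun i hi => ?_, h2⟩
      by_cases hic : i = c % 32
      · rw [hic]; exact reply_of_chk h.1
      · refine h1 i ?_
        rw [Nat.testBit_xor, testBit_one, hi]
        simp [hic]
    · rw [hm, cond_true] at h
      rw [Nat.beq_eq] at hm
      refine ⟨fun i hi => ?_, c, h⟩
      rw [hm] at hi
      simp at hi

lemma jumps_of_chk {W : Tr} {T F r : ℕ} {k : ℕ → Bool} : ∀ {fuel m c : ℕ},
    chkJumps W T F r fuel m c k = true →
    (∀ i, m.testBit i = true → Reply W T (F ^^^ (5 <<< i)) r) ∧ ∃ c', k c' = true := by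
  intro fuel
  induction fuel with
  | zero => intro m c h; simp [chkJumps] at h
  | succ fuel ih =>
    intro m c h
    rw [chkJumps] at h
    rcases hm : Nat.beq m 0 with _ | _
    · rw [hm, cond_false, Bool.and_eq_true] at h
      obtain ⟨h1, h2⟩ := ih h.2
      refine ⟨fun i hi => ?_, h2⟩
      by_cases hic : i = c % 32
      · rw [hic]; exact reply_of_chk h.1
      · refine h1 i ?_
        rw [Nat.testBit_xor, testBit_one, hi]
        simp [hic]
    · rw [hm, cond_true] at h
      rw [Nat.beq_eq] at hm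
      refine ⟨fun i hi => ?_, c, h⟩
      rw [hm] at hi
      simp at hi

/-- Left has a good reply to each move of Right at `T`, `F`, `r`. -/
def Local (W : Tr) (T F r : ℕ) : Prop :=
  (∀ i, i + 1 < 20 → T.testBit i = false → F.testBit i = false → F.testBit (i + 1) = true →
    Reply W T (F ^^^ (3 <<< i)) r) ∧
  (∀ i, i + 2 < 20 → T.testBit i = false → F.testBit i = false → T.testBit (i + 1) = true →
    F.testBit (i + 2) = true → Reply W T (F ^^^ (5 <<< i)) r) ∧
  (r ≠ 0 → Reply W T F 0)

lemma testBit_full {i : ℕ} (h : i < 20) : (1048575 : ℕ).testBit i = true := by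
  have h1 : (1048575 : ℕ) = 2 ^ 20 - 1 := by norm_num
  rw [h1, Nat.testBit_two_pow_sub_one]
  simpa using h

lemma local_of_chk {W : Tr} {T F r c : ℕ} {k : ℕ → Bool} (h : chkState W T F r c k = true) :
    Local W T F r ∧ ∃ c', k c' = true := by
  unfold chkState at h
  obtain ⟨h1, c1, h⟩ := slides_of_chk h
  obtain ⟨h2, c2, h⟩ := jumps_of_chk h
  refine ⟨⟨fun i hi hT hF hF1 => h1 i ?_, fun i hi hT hF hT1 hF2 => h2 i ?_, fun hr => ?_⟩, ?_⟩
  · rw [Nat.testBit_and, Nat.testBit_shiftRight, Nat.testBit_xor, Nat.testBit_or,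
      testBit_full (by omega), hT, hF, Nat.add_comm 1 i, hF1]
    rfl
  · rw [Nat.testBit_and, Nat.testBit_and, Nat.testBit_shiftRight, Nat.testBit_shiftRight,
      Nat.testBit_xor, Nat.testBit_or, testBit_full (by omega), hT, hF, Nat.add_comm 1 i, hT1,
      Nat.add_comm 2 i, hF2]
    rfl
  · rcases hb : Nat.beq r 0 with _ | _
    · rw [hb, cond_false, Bool.and_eq_true] at h
      exact reply_of_chk h.1
    · exact absurd (Nat.beq_eq ▸ hb) hr
  · rcases hb : Nat.beq r 0 with _ | _
    · rw [hb, cond_false, Bool.and_eq_true] at h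
      exact ⟨_, h.2⟩
    · rw [hb, cond_true] at h
      exact ⟨_, h⟩

/-- The local condition for a coded state. -/
def LocalS (W : Tr) (s : ℕ) : Prop :=
  Local W (s % 1048576) ((s / 1048576) % 1048576) ((s / 1099511627776) % 2)

lemma localS_zero (W : Tr) : LocalS W 0 := by
  refine ⟨fun i _ _ _ h => ?_, fun i _ _ _ h => ?_, fun h => ?_⟩ <;> simp at h

lemma localS_mod {W : Tr} {s : ℕ} (h : LocalS W s) : LocalS W (s % 2199023255552) := by
  unfold LocalS at h ⊢
  have h1 : s % 2199023255552 % 1048576 = s % 1048576 := by omega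
  have h2 : s % 2199023255552 / 1048576 % 1048576 = s / 1048576 % 1048576 := by omega
  have h3 : s % 2199023255552 / 1099511627776 % 2 = s / 1099511627776 % 2 := by omega
  rw [h1, h2, h3]
  exact h

lemma leaf_of_chk {W : Tr} : ∀ {fuel s c : ℕ}, chkLeaf W fuel s c = true →
    ∀ p, LocalS W ((s >>> (41 * p)) % 2199023255552) := by
  intro fuel
  induction fuel with
  | zero =>
    intro s c h p
    rw [chkLeaf, Nat.beq_eq] at h
    rw [h, Nat.zero_shiftRight, Nat.zero_mod]
    exact localS_zero W
  | succ fuel ih =>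
    intro s c h p
    rw [chkLeaf] at h
    rcases hs : Nat.beq s 0 with _ | _
    · rw [hs, cond_false] at h
      obtain ⟨h1, c', h2⟩ := local_of_chk h
      rcases p with _ | p
      · rw [Nat.mul_zero, Nat.shiftRight_zero]
        exact localS_mod h1
      · have h3 : s >>> (41 * (p + 1)) = (s >>> 41) >>> (41 * p) := by
          rw [← Nat.shiftRight_add]
          congr 1
          ring
        rw [h3]
        exact ih h2 p
    · rw [Nat.beq_eq] at hs
      rw [hs, Nat.zero_shiftRight, Nat.zero_mod]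
      exact localS_zero W

lemma tr_of_chk {W : Tr} : ∀ {t : Tr}, chkTr W t = true → ∀ p, LocalS W (t.get p) := by
  intro t
  induction t with
  | leaf s c => intro h p; exact leaf_of_chk h p
  | node l r ihl ihr =>
    intro h p
    rw [chkTr, Bool.and_eq_true] at h
    rw [Tr.get]
    rcases Nat.beq (p % 2) 0 with _ | _
    · exact ihr h.2 _
    · exact ihl h.1 _

/-! ### Moves on masks are moves of the game -/

lemma pos_empty {T F i : ℕ} (h : pos T F i = .empty) :
    T.testBit i = false ∧ F.testBit i = false := by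
  unfold pos at h
  split_ifs at h with h1 h2
  exact ⟨by simpa using h1, by simpa using h2⟩

lemma pos_toad {T F i : ℕ} (h : pos T F i = .toad) : T.testBit i = true := by
  unfold pos at h
  split_ifs at h with h1 h2
  exact h1

lemma pos_frog {T F i : ℕ} (h : pos T F i = .frog) :
    T.testBit i = false ∧ F.testBit i = true := by
  unfold pos at h
  split_ifs at h with h1 h2
  exact ⟨by simpa using h1, h2⟩

lemma xor_three (F i k : ℕ) :
    (F ^^^ (3 <<< i)).testBit k = (F.testBit k ^^ decide (k = i ∨ k = i + 1)) := by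
  rw [Nat.testBit_xor, testBit_three]

lemma xor_five (F i k : ℕ) :
    (F ^^^ (5 <<< i)).testBit k = (F.testBit k ^^ decide (k = i ∨ k = i + 2)) := by
  rw [Nat.testBit_xor, testBit_five]

lemma frog_slide {T F i : ℕ} (h1 : T.testBit i = false) (h2 : F.testBit i = false)
    (h3 : T.testBit (i + 1) = false) (h4 : F.testBit (i + 1) = true) :
    Function.update (Function.update (pos T F) (i + 1) .empty) i .frog =
      pos T (F ^^^ (3 <<< i)) := by
  funext k
  by_cases hk : k = i
  · subst hk
    simp only [pos, xor_three]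
    simp [h1, h2]
  · by_cases hk1 : k = i + 1
    · subst hk1
      simp only [pos, xor_three]
      simp [h3, h4]
    · simp only [pos, xor_three]
      simp [hk, hk1, pos]

lemma frog_jump {T F i : ℕ} (h1 : T.testBit i = false) (h2 : F.testBit i = false)
    (h3 : T.testBit (i + 2) = false) (h4 : F.testBit (i + 2) = true) :
    Function.update (Function.update (pos T F) (i + 2) .empty) i .frog =
      pos T (F ^^^ (5 <<< i)) := by
  funext k
  by_cases hk : k = i
  · subst hk
    simp only [pos, xor_five]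
    simp [h1, h2]
  · by_cases hk1 : k = i + 2
    · subst hk1
      simp only [pos, xor_five]
      simp [h3, h4]
    · simp only [pos, xor_five]
      simp [hk, hk1, pos]

lemma toad_slide {T F i : ℕ} (h1 : T.testBit i = true) (h2 : F.testBit i = false)
    (h3 : T.testBit (i + 1) = false) :
    Function.update (Function.update (pos T F) i .empty) (i + 1) .toad =
      pos (T ^^^ (3 <<< i)) F := by
  funext k
  by_cases hk : k = i
  · subst hk
    simp only [pos, xor_three]
    simp [h1, h2]
  · by_cases hk1 : k = i + 1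
    · subst hk1
      simp only [pos, xor_three]
      simp [h3]
    · simp only [pos, xor_three]
      simp [hk, hk1, pos]

lemma toad_jump {T F i : ℕ} (h1 : T.testBit i = true) (h2 : F.testBit i = false)
    (h3 : T.testBit (i + 2) = false) :
    Function.update (Function.update (pos T F) i .empty) (i + 2) .toad =
      pos (T ^^^ (5 <<< i)) F := by
  funext k
  by_cases hk : k = i
  · subst hk
    simp only [pos, xor_five]
    simp [h1, h2]
  · by_cases hk1 : k = i + 2
    · subst hk1
      simp only [pos, xor_five]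
      simp [h3]
    · simp only [pos, xor_five]
      simp [hk, hk1, pos]

/-- The position of `0` or `1` that is left when Right has `r` free moves. -/
def sm (r : ℕ) : Small := if r = 0 then .zero else .one

lemma lt_xor_three {T j : ℕ} (h1 : T.testBit (j + 1) = false) : T < T ^^^ (3 <<< j) := by
  refine Nat.lt_of_testBit (j + 1) h1 ?_ ?_
  · rw [xor_three, h1]; simp
  · intro k hk
    rw [xor_three]
    have h2 : ¬ (k = j ∨ k = j + 1) := by omega
    simp [h2]

lemma lt_xor_five {T j : ℕ} (h1 : T.testBit (j + 2) = false) : T < T ^^^ (5 <<< j) := by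
  refine Nat.lt_of_testBit (j + 2) h1 ?_ ?_
  · rw [xor_five, h1]; simp
  · intro k hk
    rw [xor_five]
    have h2 : ¬ (k = j ∨ k = j + 2) := by omega
    simp [h2]

/-- The sum of Toads and Frogs on `20` squares and the negative of the small games. -/
abbrev Sum : Ruleset := (toadsAndFrogs 20).add small.neg

lemma reply_move {W : Tr} {T F r : ℕ} (h : Reply W T F r) :
    ∃ p, T < W.get p % 1048576 ∧
      Sum.move true (pos T F, sm r)
        (pos (W.get p % 1048576) ((W.get p / 1048576) % 1048576),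
          sm ((W.get p / 1099511627776) % 2)) := by
  obtain ⟨T', p, hF, hr, hT, h⟩ := h
  refine ⟨p, ?_, ?_⟩
  · rcases h with ⟨j, h1, h2, h3, h4, h5, h6⟩ | ⟨j, h1, h2, h3, h4, h5, h6, h7, h8⟩
    · rw [hT, h6]; exact lt_xor_three h4
    · rw [hT, h8]; exact lt_xor_five h6
  · rw [hF, hr, hT]
    refine Or.inl ⟨?_, rfl⟩
    rcases h with ⟨j, h1, h2, h3, h4, h5, h6⟩ | ⟨j, h1, h2, h3, h4, h5, h6, h7, h8⟩
    · refine ⟨j, by simp [pos, h1], Or.inl ⟨h3, by simp [pos, h4, h5], ?_⟩⟩
      rw [h6]
      exact (toad_slide h1 h2 h4).symm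
    · refine ⟨j, by simp [pos, h1], Or.inr ⟨h3, by simp [pos, h4, h5],
        by simp [pos, h6, h7], ?_⟩⟩
      rw [h8]
      exact (toad_jump h1 h2 h6).symm

/-- Left wins every coded state when Right is to move. -/
theorem loses_of_chk {W : Tr} (h : chkTr W W = true) : ∀ (k p : ℕ), 1048576 - W.get p % 1048576 = k →
    Loses Sum false (pos (W.get p % 1048576) ((W.get p / 1048576) % 1048576),
      sm ((W.get p / 1099511627776) % 2)) := by
  intro k
  induction k using Nat.strong_induction_on with
  | _ k ih =>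
    intro p hk
    have hlt : ∀ m : ℕ, m % 1048576 < 1048576 := fun m => Nat.mod_lt _ (by norm_num)
    have hloc := tr_of_chk h p
    unfold LocalS at hloc
    set T := W.get p % 1048576 with hT
    set F := (W.get p / 1048576) % 1048576 with hF
    set r := (W.get p / 1099511627776) % 2 with hr
    obtain ⟨h1, h2, h3⟩ := hloc
    have key : ∀ F' r', Reply W T F' r' → ∃ z, Sum.move true (pos T F', sm r') z ∧
        Loses Sum false z := by
      intro F' r' hrep
      obtain ⟨q, hq, hm⟩ := reply_move hrep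
      refine ⟨_, hm, ih (1048576 - W.get q % 1048576) ?_ q rfl⟩
      have := hlt (W.get q)
      have := hlt (W.get p)
      omega
    refine loses_of fun y hy => ?_
    obtain ⟨y1, y2⟩ := y
    rcases hy with ⟨⟨i, hi, hm⟩, hv⟩ | ⟨hv, hm⟩
    · obtain ⟨hT0, hF0⟩ := pos_empty hi
      dsimp only at hv hm hi
      rcases hm with ⟨hi1, hf, hq⟩ | ⟨hi2, ht, hf, hq⟩
      · obtain ⟨hT1, hF1⟩ := pos_frog hf
        rw [frog_slide hT0 hF0 hT1 hF1] at hq
        rw [hq, ← hv]
        exact key _ _ (h1 i hi1 hT0 hF0 hF1)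
      · obtain ⟨hT2, hF2⟩ := pos_frog hf
        rw [frog_jump hT0 hF0 hT2 hF2] at hq
        rw [hq, ← hv]
        exact key _ _ (h2 i hi2 hT0 hF0 (pos_toad ht) hF2)
    · dsimp only at hv hm
      have hm' : (sm r = .one ∧ y2 = .zero) ∨ (sm r = .oneStar ∧ y2 = .one) := hm
      rcases hm' with ⟨h4, h5⟩ | ⟨h4, h5⟩
      · have hr0 : r ≠ 0 := by
          intro h0
          rw [h0] at h4
          simp [sm] at h4
        rw [h5, ← hv]
        exact key F 0 (h3 hr0)
      · unfold sm at h4
        split_ifs at h4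

end Pool.Agent.Q129.Toads
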